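import Pool.Agent.H.MP_4840d7_an.C

namespace Pool.Agent.Results.MP_4840d7_an.Yes

open Set Filter Topology Pool.Agent.H.MP_4840d7_an

/-- A C*-correspondence: a right Hilbert `A`-module `X` (right action `act`, inner product `ip`)
with a *-homomorphism `φ` of `A` into the adjointable operators on `X`. -/
structure Corr (A X : Type) [NonUnitalCStarAlgebra A] [NormedAddCommGroup X] [NormedSpace ℂ X]
    [CompleteSpace X] where
  act : X →ₗ[ℂ] A →ₗ[ℂ] X
  act_mul : ∀ x a b, act (act x a) b = act x (a * b)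
  ip : X →ₗ⋆[ℂ] X →ₗ[ℂ] A
  ip_act : ∀ x y a, ip x (act y a) = ip x y * a
  star_ip : ∀ x y, star (ip x y) = ip y x
  ip_pos : ∀ x, ∃ b, ip x x = star b * b
  norm_sq : ∀ x, ‖x‖ ^ 2 = ‖ip x x‖
  φ : A →ₗ[ℂ] X →L[ℂ] X
  φ_mul : ∀ a b, φ (a * b) = φ a * φ b
  φ_adj : ∀ a x y, ip (φ a x) y = ip x (φ (star a) y)

variable {A X : Type} [NonUnitalCStarAlgebra A] [NormedAddCommGroup X] [NormedSpace ℂ X]
  [CompleteSpace X]

/-- Toeplitz representation in the C*-algebra `B`. -/
def IsToeplitz (c : Corr A X) {B : Type} [NonUnitalCStarAlgebra B] (π : A →⋆ₙₐ[ℂ] B)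
    (t : X →ₗ[ℂ] B) : Prop :=
  (∀ a x, π a * t x = t (c.φ a x)) ∧ ∀ x y, star (t x) * t y = π (c.ip x y)

/-- Universal Toeplitz representation: every Toeplitz representation factors through it. -/
def IsUniversal (c : Corr A X) {B : Type} [NonUnitalCStarAlgebra B] (π : A →⋆ₙₐ[ℂ] B)
    (t : X →ₗ[ℂ] B) : Prop :=
  IsToeplitz c π t ∧ ∀ (B' : Type) [NonUnitalCStarAlgebra B'] (π' : A →⋆ₙₐ[ℂ] B')
    (t' : X →ₗ[ℂ] B'), IsToeplitz c π' t' →
      ∃ ψ : B →⋆ₙₐ[ℂ] B', (∀ a, ψ (π a) = π' a) ∧ ∀ x, ψ (t x) = t' x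

/-- The tensor algebra: the norm-closed subalgebra generated by the ranges of `π` and `t`. -/
def tensorAlg {B : Type} [NonUnitalCStarAlgebra B] (π : A →⋆ₙₐ[ℂ] B) (t : X →ₗ[ℂ] B) :
    NonUnitalSubalgebra ℂ B :=
  (NonUnitalAlgebra.adjoin ℂ (range π ∪ range t)).topologicalClosure

theorem result (c : Corr A X) (B : Type) [NonUnitalCStarAlgebra B] (π : A →⋆ₙₐ[ℂ] B)
    (t : X →ₗ[ℂ] B) (h : IsUniversal c π t) (S : tensorAlg π t →L[ℂ] tensorAlg π t)
    (hS : (∀ a, ∃ x, S a = x * a) ∨
      ∀ a, ∃ x : ℕ → tensorAlg π t, Tendsto (fun n => x n * a) atTop (𝓝 (S a))) :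
    ∀ a b, S (a * b) = S a * b := by
  have hS' : ∀ a, ∃ x : ℕ → tensorAlg π t, Tendsto (fun n => x n * a) atTop (𝓝 (S a)) :=
    hS.elim (fun h a => (h a).elim fun x hx => ⟨fun _ => x, hx ▸ tendsto_const_nhds⟩) id
  have ht := h.1
  have hr : ∀ x a, t x * π a = t (c.act x a) := fun x a => by
    rw [← sub_eq_zero, ← CStarRing.star_mul_self_eq_zero_iff, star_sub, star_mul, sub_mul,
      mul_sub, mul_sub, mul_assoc, mul_assoc, ← mul_assoc (star (t x)),
      ← mul_assoc (star (t (c.act x a))), ht.2, ht.2, ht.2, ht.2, c.ip_act, c.ip_act, map_mul,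
      map_mul, sub_self, sub_self, sub_zero]
  have hg : ∀ θ : AddCircle (1 : ℝ), IsToeplitz c π (fourier 1 θ • t) := fun θ =>
    ⟨fun a x => by rw [LinearMap.smul_apply, LinearMap.smul_apply, mul_smul_comm, ht.1],
      fun x y => by
      rw [LinearMap.smul_apply, LinearMap.smul_apply, star_smul, smul_mul_smul_comm, ht.2,
        Complex.star_def, ← fourier_neg, ← fourier_add]
      simp⟩
  choose γ γ1 γ2 using fun θ => h.2 _ _ _ (hg θ)
  let i : B →ₗ[ℂ] Unitization ℂ B := Unitization.inrHom ℂ ℂ B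
  have hi : ∀ b, i b = (b : Unitization ℂ B) := fun _ => rfl
  let A0 := (Unitization.starMap π).range
  let X0 := LinearMap.range (i ∘ₗ t)
  have hA0 : ∀ a ∈ A0, ∃ (r : ℂ) (a' : A), a = r • 1 + i (π a') := by
    rintro _ ⟨a, rfl⟩
    exact ⟨a.fst, a.snd, by simp [hi, Algebra.algebraMap_eq_smul_one]⟩
  have hc : ∀ θ, Continuous (Unitization.starMap (γ θ)) := fun θ =>
    AddMonoidHomClass.continuous_of_bound _ 1 fun b => by
      simpa only [one_mul] using NonUnitalStarAlgHom.norm_apply_le (Unitization.starMap (γ θ)) b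
  let s : Sys (Unitization ℂ B) :=
    { A := A0.topologicalClosure
      hA := isClosed_closure
      X := X0.topologicalClosure
      hX := isClosed_closure
      AX := fun a ha x hx => map_mem_closure₂ continuous_mul ha hx (by
        rintro a ha _ ⟨x, rfl⟩
        obtain ⟨r, a, rfl⟩ := hA0 a ha
        exact ⟨r • x + c.φ a x, by simp [hi, add_mul, ← ht.1]⟩)
      XA := fun x hx a ha => map_mem_closure₂ continuous_mul hx ha (by
        rintro _ ⟨x, rfl⟩ a ha
        obtain ⟨r, a, rfl⟩ := hA0 a ha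
        exact ⟨r • x + c.act x a, by simp [hi, mul_add, ← hr]⟩)
      XX := fun x hx y hy => map_mem_closure₂ (f := fun x y => star x * y) (by fun_prop) hx hy (by
        rintro _ ⟨x, rfl⟩ _ ⟨y, rfl⟩
        exact ⟨c.ip x y, by simp [hi, ← ht.2]⟩)
      γ := fun θ => Unitization.starMap (γ θ)
      γA := fun θ a ha => closure_minimal (t := {a | Unitization.starMap (γ θ) a = a}) (by
        intro a ha
        obtain ⟨r, a, rfl⟩ := hA0 a ha
        simp [hi, γ1, Algebra.algebraMap_eq_smul_one]) (isClosed_eq (hc θ) continuous_id) ha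
      γX := fun θ x hx => closure_minimal
        (t := {x | Unitization.starMap (γ θ) x = fourier 1 θ • x}) (by
        rintro _ ⟨x, rfl⟩
        simp [hi, γ2]) (isClosed_eq (hc θ) (by fun_prop)) hx }
  have iso : Isometry i := Unitization.isometry_inr
  let e : tensorAlg π t →ₗ[ℂ] Unitization ℂ B := i ∘ₗ (tensorAlg π t).toSubmodule.subtype
  have he : ∀ a, e a = ((a : B) : Unitization ℂ B) := fun _ => rfl
  have em : ∀ a b, e (a * b) = e a * e b := fun a b => by simp [he]
  have einj : Function.Injective e := iso.injective.comp Subtype.val_injective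
  obtain ⟨g, hg⟩ := e.exists_leftInverse_of_injective (LinearMap.ker_eq_bot.2 einj)
  have hge : ∀ a, g (e a) = a := LinearMap.congr_fun hg
  have eT : ∀ a, e a ∈ s.T := fun a => by
    let Q : NonUnitalSubalgebra ℂ B := (s.T.comap i).toNonUnitalSubalgebra fun a b ha hb => by
      simpa [hi] using Sys.T_mul ha hb
    refine NonUnitalSubalgebra.topologicalClosure_minimal (t := Q)
      (NonUnitalAlgebra.adjoin_le ?_) (s.T_closed.preimage iso.continuous) a.2
    rintro _ (⟨a, rfl⟩ | ⟨x, rfl⟩)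
    · exact Sys.AT (s := s) (subset_closure ⟨a, by simp [hi]⟩)
    · exact Sys.XT (s := s) (subset_closure ⟨x, rfl⟩)
  have Jc : IsClosed (LinearMap.range e : Set (Unitization ℂ B)) :=
    (iso.isClosedEmbedding.comp
      (isClosed_closure (s := _)).isClosedEmbedding_subtypeVal).isClosed_range
  have gen : ∀ b ∈ range π ∪ range t, b ∈ tensorAlg π t := fun b hb =>
    subset_closure (NonUnitalAlgebra.subset_adjoin ℂ hb)
  have cl : ∀ f, IsClosed {b | f * b ∈ LinearMap.range e} := fun f =>
    Jc.preimage (continuous_const_mul f)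
  obtain ⟨C, hC⟩ : ∃ C : ℝ, ∀ a, ‖S a‖ ≤ C * ‖a‖ := by
    let _ : NormedSpace ℂ (tensorAlg π t) := ⟨fun r a => norm_smul_le r (a : B)⟩
    exact ⟨_, S.le_opNorm⟩
  let m : Loc s :=
    { J := LinearMap.range e
      JT := by rintro _ ⟨a, rfl⟩; exact eT a
      hJ := fun f hf b hb => by
        refine Sys.ind (P := fun b => ∀ f ∈ LinearMap.range e, f * b ∈ LinearMap.range e)
          (s.T_closed.inter ?_) (by simp) (fun _ _ _ _ h h' f hf => by
            rw [mul_add]; exact add_mem (h f hf) (h' f hf))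
          (fun r _ _ h f hf => by rw [mul_smul_comm]; exact Submodule.smul_mem _ r (h f hf))
          (fun n a h => ?_) hb f hf
        · simp only [setOf_forall]
          exact isClosed_iInter fun f => isClosed_iInter fun _ => cl f
        · induction h with
          | base ha =>
            rintro _ ⟨f, rfl⟩
            refine closure_minimal (fun a ha => ?_) (cl _) ha
            obtain ⟨r, a, rfl⟩ := hA0 a ha
            exact ⟨r • f + f * ⟨_, gen _ (Or.inl ⟨a, rfl⟩)⟩, by simp [he, hi, mul_add]⟩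
          | tm hx _ ih =>
            rintro _ ⟨f, rfl⟩
            rw [← mul_assoc]
            refine ih _ (closure_minimal ?_ (cl _) hx)
            rintro _ ⟨x, rfl⟩
            exact ⟨f * ⟨_, gen _ (Or.inr ⟨x, rfl⟩)⟩, em _ _⟩
          | add _ _ i1 i2 => intro f hf; rw [mul_add]; exact add_mem (i1 f hf) (i2 f hf)
          | smul r _ i1 => intro f hf; rw [mul_smul_comm]; exact Submodule.smul_mem _ r (i1 f hf)
      S := e ∘ₗ S.toLinearMap ∘ₗ g
      C := C
      hC := by
        rintro _ ⟨a, rfl⟩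
        simp only [LinearMap.comp_apply, hge]
        rw [he, he, Unitization.norm_inr, Unitization.norm_inr]
        exact hC a
      hS := by
        rintro _ ⟨a, rfl⟩
        obtain ⟨x, hx⟩ := hS' a
        simp only [LinearMap.comp_apply, hge]
        exact mem_closure_of_tendsto
          (((iso.continuous.comp continuous_subtype_val).tendsto _).comp hx)
          (Eventually.of_forall fun n => ⟨_, eT (x n), (em _ _).symm⟩) }
  intro a b
  have := m.main (eT b) (e a) ⟨a, rfl⟩
  simp only [Loc.Δ, m, LinearMap.comp_apply, ← em, hge, sub_eq_zero] at this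
  exact (einj this).symm

end Pool.Agent.Results.MP_4840d7_an.Yes
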